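import Mathlib

/-!
# Gaps in the spans of n-tuple T-colorings, T = {0, 1, ..., r} (MP_56aac4_co)

For `n ≥ 4` and `r ≥ 3 n - 4` no finite graph whatsoever has `sp_T^n (G) = 3 n + 2 r - 2`, although this
integer lies in the range `[(r+1)(k-1) + 2(n-1), (n+r)k - (r+1)]` for `k = 3`. Hence the question of
Füredi, Griggs and Kleitman has a negative answer.

The reason: for large `r` two adjacent `n`-sets inside an interval of length `3 n + 2 r - 2` are either
separated or one of them sits in a gap of the other one. By looking only at the minimum and at the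
maximum of every set one gets a homomorphism to a `5`-cycle, and the `5`-cycle has an `n`-tuple
`T`-coloring with span `3 n + 2 r - 3`.
-/

namespace Pool.Agent.Results.MP_56aac4_co.SpanGap

universe u

/-- `S` is an `n`-tuple `T`-coloring of `G`, where `T = {0, 1, ..., r}`: every vertex gets a set of
exactly `n` positive integers, and `|a - b|` is not in `T` for `a ∈ S x`, `b ∈ S y`, `x` adjacent
to `y`. -/
structure IsTupleTColoring {V : Type u} (G : SimpleGraph V) (r n : ℕ) (S : V → Finset ℕ) :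
    Prop where
  card : ∀ x, (S x).card = n
  pos : ∀ x, ∀ a ∈ S x, 0 < a
  adj : ∀ x y, G.Adj x y → ∀ a ∈ S x, ∀ b ∈ S y, |(a : ℤ) - (b : ℤ)| ∉ Set.Icc (0 : ℤ) r

/-- The set of all colors used by `S`. -/
def used {V : Type u} (S : V → Finset ℕ) : Set ℕ := {a | ∃ x, a ∈ S x}

/-- The span of `S`: the largest color used minus the smallest color used. -/
noncomputable def span {V : Type u} (S : V → Finset ℕ) : ℕ := sSup (used S) - sInf (used S)

/-- The minimum span of an `n`-tuple `T`-coloring of `G`, where `T = {0, 1, ..., r}`. -/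
noncomputable def sp {V : Type u} (G : SimpleGraph V) (r n : ℕ) : ℕ :=
  sInf {d | ∃ S : V → Finset ℕ, IsTupleTColoring G r n S ∧ span S = d}

/-- The homomorphism to the `5`-cycle `0 - 1 - 2 - 3 - 4 - 0`, in terms of the minimum `p` and the
maximum `q` of a set (`n = k + 4`). -/
def f (k r p q : ℕ) : ℕ :=
  if p + 2 * r + k + 5 ≤ q then 2
  else if r + 1 ≤ p ∧ q ≤ 3 * k + r + 9 then (if q ≤ 2 * k + r + 6 then 1 else 3)
  else if q ≤ 2 * k + r + 6 then 4 else 0

/-- The `T`-coloring of the `5`-cycle (`n = k + 4`). -/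
def C (k r : ℕ) (i : ℕ) : Finset ℕ :=
  if i = 0 then Finset.Icc (2 * k + 2 * r + 7) (3 * k + 2 * r + 10)
  else if i = 1 then Finset.Icc (r + k + 3) (r + 2 * k + 6)
  else if i = 2 then Finset.Icc 1 2 ∪ Finset.Icc (2 * k + 2 * r + 9) (3 * k + 2 * r + 10)
  else if i = 3 then Finset.Icc (r + k + 5) (r + 2 * k + 8)
  else Finset.Icc 1 (k + 4)

/-- Adjacency in the `5`-cycle. -/
def CycAdj (i j : ℕ) : Prop :=
  (i = 0 ∧ j = 1) ∨ (i = 1 ∧ j = 2) ∨ (i = 2 ∧ j = 3) ∨ (i = 3 ∧ j = 4) ∨ (i = 4 ∧ j = 0) ∨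
  (j = 0 ∧ i = 1) ∨ (j = 1 ∧ i = 2) ∨ (j = 2 ∧ i = 3) ∨ (j = 3 ∧ i = 4) ∨ (j = 4 ∧ i = 0)

/-- `a` and `b` have distance more than `r`. -/
def Far (r a b : ℕ) : Prop := a + r < b ∨ b + r < a

theorem f_adj {k r p q p' q' : ℕ} (hr : 3 * k + 8 ≤ r) (h1 : p + k + 3 ≤ q)
    (h2 : q ≤ 3 * k + 2 * r + 10) (h1' : p' + k + 3 ≤ q') (h2' : q' ≤ 3 * k + 2 * r + 10)
    (ha : Far r p p') (hb : Far r p q') (hc : Far r q p') (hd : Far r q q') :
    CycAdj (f k r p q) (f k r p' q') := by
  unfold Far at ha hb hc hd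
  unfold f CycAdj
  split_ifs <;> omega

theorem C_adj {k r i j a b : ℕ} (h : CycAdj i j) (ha : a ∈ C k r i) (hb : b ∈ C k r j) :
    Far r a b := by
  unfold CycAdj at h
  unfold C at ha hb
  unfold Far
  rcases h with ⟨rfl, rfl⟩ | ⟨rfl, rfl⟩ | ⟨rfl, rfl⟩ | ⟨rfl, rfl⟩ | ⟨rfl, rfl⟩ | ⟨rfl, rfl⟩ |
    ⟨rfl, rfl⟩ | ⟨rfl, rfl⟩ | ⟨rfl, rfl⟩ | ⟨rfl, rfl⟩ <;>
  simp at ha hb <;> omega

theorem C_card (k r i : ℕ) : (C k r i).card = k + 4 := by
  unfold C
  split_ifs
  · rw [Nat.card_Icc]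
    omega
  · rw [Nat.card_Icc]
    omega
  · rw [Finset.card_union_of_disjoint]
    · rw [Nat.card_Icc, Nat.card_Icc]
      omega
    · rw [Finset.disjoint_left]
      intro a ha hb
      rw [Finset.mem_Icc] at ha hb
      omega
  · rw [Nat.card_Icc]
    omega
  · rw [Nat.card_Icc]
    omega

theorem C_mem {k r i a : ℕ} (h : a ∈ C k r i) : 1 ≤ a ∧ a ≤ 3 * k + 2 * r + 10 := by
  unfold C at h
  split_ifs at h <;> simp at h <;> omega

theorem far_of_notMem {r a b : ℕ} (h : |(a : ℤ) - (b : ℤ)| ∉ Set.Icc (0 : ℤ) r) : Far r a b := by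
  rw [Set.mem_Icc, not_and_or] at h
  unfold Far
  rcases abs_cases ((a : ℤ) - (b : ℤ)) with ⟨h1, h2⟩ | ⟨h1, h2⟩ <;> rw [h1] at h <;> omega

theorem notMem_of_far {r a b : ℕ} (h : Far r a b) : |(a : ℤ) - (b : ℤ)| ∉ Set.Icc (0 : ℤ) r := by
  rw [Set.mem_Icc, not_and_or]
  unfold Far at h
  rcases abs_cases ((a : ℤ) - (b : ℤ)) with ⟨h1, h2⟩ | ⟨h1, h2⟩ <;> rw [h1] <;> omega

theorem used_finite {V : Type u} [Finite V] (S : V → Finset ℕ) : (used S).Finite := by
  have : used S = ⋃ x, (S x : Set ℕ) := by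
    ext a
    simp [used]
  rw [this]
  exact Set.finite_iUnion fun x => (S x).finite_toSet

/-- A coloring with span at most `3 n + 2 r - 2` can be replaced by one with a smaller span. -/
theorem improve {V : Type u} [Finite V] [Nonempty V] (G : SimpleGraph V) {k r : ℕ}
    (hr : 3 * k + 8 ≤ r) (S : V → Finset ℕ) (hS : IsTupleTColoring G r (k + 4) S)
    (hspan : span S ≤ 3 * k + 2 * r + 10) :
    ∃ S' : V → Finset ℕ, IsTupleTColoring G r (k + 4) S' ∧ span S' ≤ 3 * k + 2 * r + 9 := by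
  have hne : ∀ x, (S x).Nonempty := fun x => by
    rw [← Finset.card_pos, hS.card x]
    omega
  have hfin := used_finite S
  have hlo : ∀ x, ∀ a ∈ S x, sInf (used S) ≤ a := fun x a ha => Nat.sInf_le ⟨x, ha⟩
  have hhi : ∀ x, ∀ a ∈ S x, a ≤ sSup (used S) := fun x a ha => le_csSup hfin.bddAbove ⟨x, ha⟩
  set L := sInf (used S) with hL
  have hhi' : ∀ x, ∀ a ∈ S x, a ≤ L + (3 * k + 2 * r + 10) := fun x a ha => by
    have h1 := hhi x a ha
    unfold span at hspan
    omega
  -- the extent of a set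
  have hext : ∀ x, (S x).min' (hne x) + k + 3 ≤ (S x).max' (hne x) := fun x => by
    have h1 : S x ⊆ Finset.Icc ((S x).min' (hne x)) ((S x).max' (hne x)) := fun a ha => by
      rw [Finset.mem_Icc]
      exact ⟨Finset.min'_le _ _ ha, Finset.le_max' _ _ ha⟩
    have h2 := Finset.card_le_card h1
    rw [hS.card x, Nat.card_Icc] at h2
    omega
  let F : V → ℕ := fun x => f k r ((S x).min' (hne x) - L) ((S x).max' (hne x) - L)
  have hF : ∀ x y, G.Adj x y → CycAdj (F x) (F y) := by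
    intro x y hxy
    have hx1 := (S x).min'_mem (hne x)
    have hx2 := (S x).max'_mem (hne x)
    have hy1 := (S y).min'_mem (hne y)
    have hy2 := (S y).max'_mem (hne y)
    have h11 := far_of_notMem (hS.adj x y hxy _ hx1 _ hy1)
    have h12 := far_of_notMem (hS.adj x y hxy _ hx1 _ hy2)
    have h21 := far_of_notMem (hS.adj x y hxy _ hx2 _ hy1)
    have h22 := far_of_notMem (hS.adj x y hxy _ hx2 _ hy2)
    have e1 := hext x
    have e2 := hext y
    have l1 := hlo x _ hx1
    have l2 := hlo x _ hx2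
    have l3 := hlo y _ hy1
    have l4 := hlo y _ hy2
    have u1 := hhi' x _ hx1
    have u2 := hhi' x _ hx2
    have u3 := hhi' y _ hy1
    have u4 := hhi' y _ hy2
    unfold Far at h11 h12 h21 h22
    refine f_adj hr ?_ ?_ ?_ ?_ ?_ ?_ ?_ ?_ <;> (try unfold Far) <;> omega
  refine ⟨fun x => C k r (F x), ⟨fun x => C_card k r _, fun x a ha => (C_mem ha).1, ?_⟩, ?_⟩
  · intro x y hxy a ha b hb
    exact notMem_of_far (C_adj (hF x y hxy) ha hb)
  · have h1 : sSup (used fun x => C k r (F x)) ≤ 3 * k + 2 * r + 10 := by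
      obtain ⟨x⟩ := ‹Nonempty V›
      refine csSup_le ?_ ?_
      · have : (C k r (F x)).Nonempty := by
          rw [← Finset.card_pos, C_card]
          omega
        obtain ⟨a, ha⟩ := this
        exact ⟨a, x, ha⟩
      · rintro a ⟨y, ha⟩
        exact (C_mem ha).2
    have h2 : 1 ≤ sInf (used fun x => C k r (F x)) := by
      obtain ⟨x⟩ := ‹Nonempty V›
      have hne' : (used fun x => C k r (F x)).Nonempty := by
        have : (C k r (F x)).Nonempty := by
          rw [← Finset.card_pos, C_card]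
          omega
        obtain ⟨a, ha⟩ := this
        exact ⟨a, x, ha⟩
      obtain ⟨y, ha⟩ := Nat.sInf_mem hne'
      exact (C_mem ha).1
    unfold span
    omega

/-- No finite graph has minimum span `3 n + 2 r - 2`, if `n ≥ 4` and `r ≥ 3 n - 4`. -/
theorem sp_ne {V : Type u} [Finite V] (G : SimpleGraph V) {n r : ℕ} (hn : 4 ≤ n)
    (hr : 3 * n ≤ r + 4) : sp G r n ≠ 3 * n + 2 * r - 2 := by
  intro h
  obtain ⟨k, rfl⟩ : ∃ k, n = k + 4 := ⟨n - 4, by omega⟩
  have hne : {d | ∃ S : V → Finset ℕ, IsTupleTColoring G r (k + 4) S ∧ span S = d}.Nonempty := by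
    by_contra hcon
    rw [Set.not_nonempty_iff_eq_empty] at hcon
    unfold sp at h
    rw [hcon, Nat.sInf_empty] at h
    omega
  have hmem := Nat.sInf_mem hne
  have h' : sInf {d | ∃ S : V → Finset ℕ, IsTupleTColoring G r (k + 4) S ∧ span S = d} =
    3 * (k + 4) + 2 * r - 2 := h
  rw [h'] at hmem
  obtain ⟨S, hS, hspan⟩ := hmem
  have hV : Nonempty V := by
    by_contra hcon
    rw [not_nonempty_iff] at hcon
    have : used S = ∅ := by
      ext a
      simp [used]
    unfold span at hspan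
    rw [this, Nat.sInf_empty] at hspan
    simp at hspan
    omega
  obtain ⟨S', hS', hspan'⟩ := improve G (by omega) S hS (by omega)
  have h2 : sInf {d | ∃ S : V → Finset ℕ, IsTupleTColoring G r (k + 4) S ∧ span S = d} ≤ span S' :=
    Nat.sInf_le ⟨S', hS', rfl⟩
  omega

/-- The positive form of the question of Füredi, Griggs and Kleitman. -/
def Question : Prop :=
  ∀ r n k s : ℕ, 1 ≤ n → 2 ≤ k → (r + 1) * (k - 1) + 2 * (n - 1) ≤ s →
    s + (r + 1) ≤ (n + r) * k →
    ∃ (V : Type) (_ : Fintype V) (G : SimpleGraph V), G.chromaticNumber = k ∧ sp G r n = s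

/-- **Main theorem.** For all `n ≥ 4` and `r ≥ 3 n - 4`, the integer `s = 3 n + 2 r - 2` lies in the
range `[(r+1)(k-1) + 2(n-1), (n+r)k - (r+1)]` with `k = 3`, but it is not the minimum span of any
finite graph. In particular the question of Füredi, Griggs and Kleitman has a negative answer. -/
theorem result :
    (∀ n r : ℕ, 4 ≤ n → 3 * n ≤ r + 4 →
      ((r + 1) * (3 - 1) + 2 * (n - 1) ≤ 3 * n + 2 * r - 2 ∧
        (3 * n + 2 * r - 2) + (r + 1) ≤ (n + r) * 3) ∧
      ∀ (V : Type u) [Finite V] (G : SimpleGraph V), sp G r n ≠ 3 * n + 2 * r - 2) ∧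
    ¬ Question := by
  refine ⟨fun n r hn hr => ⟨by omega, fun V _ G => sp_ne G hn hr⟩, fun h => ?_⟩
  obtain ⟨V, _, G, -, hG⟩ := h 8 4 3 26 (by norm_num) (by norm_num) (by norm_num) (by norm_num)
  exact sp_ne G (n := 4) (r := 8) (by norm_num) (by norm_num) hG

end Pool.Agent.Results.MP_56aac4_co.SpanGap
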